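import Mathlib

namespace Pool.Agent.Results.MP_cf5fc4_an.Cost

open Filter Topology NormedSpace MeasureTheory Set Matrix
open scoped Matrix.Norms.L2Operator MatrixOrder ComplexOrder

/-- The operator norm induced by the Euclidean norm. -/
noncomputable def opNorm {n : ℕ} (X : Matrix (Fin n) (Fin n) ℂ) : ℝ := ‖X‖

/-- The integrand `exp(t M^*) exp(t M)`. -/
noncomputable def integrand {n : ℕ} (M : Matrix (Fin n) (Fin n) ℂ) (t : ℝ) :
    Matrix (Fin n) (Fin n) ℂ := exp (t • Mᴴ) * exp (t • M)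

/-- The cost matrix. -/
noncomputable def cost {n : ℕ} (M : Matrix (Fin n) (Fin n) ℂ) : Matrix (Fin n) (Fin n) ℂ :=
  ∫ t in Ioi (0 : ℝ), integrand M t

lemma decay {𝔸 : Type} [CStarAlgebra 𝔸] [Nontrivial 𝔸] (M : 𝔸) (γ : ℝ) (g0 : 0 < γ)
    (h : ∀ μ ∈ spectrum ℂ M, μ.re ≤ -γ) :
    ∃ C, ∀ t : ℝ, 0 ≤ t → ‖exp (t • M)‖ ≤ C * Real.exp (-(γ / 4) * t) := by
  set c := ‖M‖ ^ 2 / γ + γ with hc
  have c1 : γ ≤ c := le_add_of_nonneg_left (by positivity)
  have c2 : ‖M‖ ^ 2 ≤ c * γ := by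
    rw [hc, add_mul, div_mul_cancel₀ _ g0.ne']
    nlinarith
  set P := algebraMap ℂ 𝔸 c + M with hP
  have r0 : 0 < c - γ / 4 := by linarith
  have h1 : spectralRadius ℂ P < ENNReal.ofReal (c - γ / 4) := by
    refine lt_of_le_of_lt (b := ENNReal.ofReal (c - γ / 2)) (iSup₂_le fun k hk => ?_)
      ((ENNReal.ofReal_lt_ofReal_iff r0).2 (by linarith))
    rw [hP, ← spectrum.singleton_add_eq] at hk
    obtain ⟨_, rfl, μ, hμ, rfl⟩ := hk
    rw [← enorm_eq_nnnorm, ← ofReal_norm]
    refine ENNReal.ofReal_le_ofReal (le_of_sq_le_sq ?_ (by linarith))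
    have q1 := h μ hμ
    have q2 := pow_le_pow_left₀ (norm_nonneg _) (spectrum.norm_le_norm_of_mem hμ) 2
    rw [Complex.sq_norm, Complex.normSq_apply] at q2 ⊢
    simp only [Complex.add_re, Complex.ofReal_re, Complex.add_im, Complex.ofReal_im]
    nlinarith
  have h2 : (fun k : ℕ => P ^ k) =O[atTop] fun k => (c - γ / 4) ^ k := by
    refine .of_bound' ?_
    filter_upwards [(spectrum.pow_norm_pow_one_div_tendsto_nhds_spectralRadius P).eventually
      (gt_mem_nhds h1), eventually_ne_atTop 0] with k hk k0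
    have := pow_le_pow_left₀ (by positivity) ((ENNReal.ofReal_lt_ofReal_iff r0).1 hk).le k
    rwa [one_div, Real.rpow_inv_natCast_pow (norm_nonneg _) k0,
      ← Real.norm_of_nonneg (pow_pos r0 k).le] at this
  obtain ⟨C, C0, hC⟩ := Asymptotics.bound_of_isBigO_nat_atTop h2
  refine ⟨C, fun t t0 => ?_⟩
  have h3 : ‖exp (t • P)‖ ≤ C * Real.exp (t * (c - γ / 4)) := by
    rw [Real.exp_eq_exp_ℝ]
    refine (exp_series_hasSum_exp' (𝕂 := ℝ) (t • P)).norm_le_of_bounded
      ((expSeries_div_hasSum_exp (t * (c - γ / 4))).mul_left C) fun k => ?_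
    have := hC (pow_pos r0 k).ne'
    rw [Real.norm_of_nonneg (pow_pos r0 k).le] at this
    rw [smul_pow, norm_smul, norm_smul, Real.norm_of_nonneg (by positivity),
      Real.norm_of_nonneg (by positivity), mul_pow]
    calc _ ≤ (k.factorial : ℝ)⁻¹ * (t ^ k * (C * (c - γ / 4) ^ k)) := by gcongr
      _ = _ := by ring
  have e : t • M = algebraMap ℝ 𝔸 (-(t * c)) + t • P := by
    simp only [hP, Algebra.algebraMap_eq_smul_one, Complex.coe_smul, smul_add, smul_smul, neg_smul]
    abel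
  let _ : NormedAlgebra ℚ 𝔸 := .restrictScalars ℚ ℂ 𝔸
  rw [e, NormedSpace.exp_add_of_commute (Algebra.commute_algebraMap_left _ _), ← algebraMap_exp_comm,
    ← Algebra.smul_def, norm_smul, ← Real.exp_eq_exp_ℝ, Real.norm_of_nonneg (Real.exp_pos _).le]
  calc _ ≤ Real.exp (-(t * c)) * (C * Real.exp (t * (c - γ / 4))) := by gcongr
    _ = _ := by
      rw [mul_left_comm, ← Real.exp_add]
      ring_nf

lemma lyap {𝔸 : Type} [CStarAlgebra 𝔸] [Nontrivial 𝔸] [PartialOrder 𝔸] [StarOrderedRing 𝔸] (M : 𝔸)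
    (γ : ℝ) (g0 : 0 < γ) (h : ∀ μ ∈ spectrum ℂ M, μ.re ≤ -γ) (X : 𝔸)
    (hX : X = ∫ t in Ioi (0 : ℝ), exp (t • star M) * exp (t • M)) :
    0 ≤ X ∧ star M * X + X * M = -1 := by
  obtain ⟨C, hC⟩ := decay M γ g0 h
  have es : ∀ t : ℝ, exp (t • star M) = star (exp (t • M)) := fun t => by
    rw [star_exp, star_smul, star_trivial t]
  have hd : ∀ t : ℝ, HasDerivAt (fun t : ℝ => exp (t • star M) * exp (t • M))
      (star M * (exp (t • star M) * exp (t • M)) + exp (t • star M) * exp (t • M) * M) t := fun t => by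
    simpa only [mul_assoc] using (hasDerivAt_exp_smul_const' (star M) t).fun_mul
      (hasDerivAt_exp_smul_const M t)
  have b : ∀ t : ℝ, 0 ≤ t → ‖exp (t • star M) * exp (t • M)‖ ≤ C ^ 2 * Real.exp (-(γ / 2) * t) :=
    fun t t0 => by
      rw [es, CStarRing.norm_star_mul_self, ← sq]
      refine (pow_le_pow_left₀ (norm_nonneg _) (hC t t0) 2).trans_eq ?_
      rw [mul_pow, ← Real.exp_nat_mul]
      ring_nf
  have it : IntegrableOn (fun t : ℝ => exp (t • star M) * exp (t • M)) (Ioi 0) :=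
    ((exp_neg_integrableOn_Ioi 0 (half_pos g0)).const_mul (C ^ 2)).mono'
      (continuous_iff_continuousAt.2 fun t => (hd t).continuousAt).aestronglyMeasurable
      ((ae_restrict_iff' measurableSet_Ioi).2 (.of_forall fun t ht => b t (le_of_lt ht)))
  have tz : Tendsto (fun t : ℝ => exp (t • star M) * exp (t • M)) atTop (𝓝 0) := by
    refine squeeze_zero_norm' ((eventually_ge_atTop 0).mono b) ?_
    simpa using (Real.tendsto_exp_atBot.comp
      (tendsto_id.const_mul_atTop_of_neg (neg_lt_zero.2 (half_pos g0)))).const_mul (C ^ 2)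
  have := integral_Ioi_of_hasDerivAt_of_tendsto' (fun t _ => hd t)
    ((it.const_mul _).add (it.mul_const _)) tz
  rw [integral_add (it.const_mul _) (it.mul_const _), integral_const_mul_of_integrable it,
    integral_mul_const_of_integrable it, ← hX] at this
  exact ⟨hX ▸ integral_nonneg fun t => by simp [es], by simpa using this⟩

theorem result (n m : ℕ) (hm : m < n) (A : Matrix (Fin n) (Fin n) ℂ) (B : Matrix (Fin n) (Fin m) ℂ)
    (F : Matrix (Fin m) (Fin n) ℂ) (γ : ℝ) (g0 : 0 < γ)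
    (h : ∀ μ ∈ spectrum ℂ (A - B * F), μ.re ≤ -γ) :
    γ ≤ 2 * n * opNorm A ^ 2 * opNorm (cost (A - B * F)) := by
  have : Nonempty (Fin n) := ⟨⟨0, by omega⟩⟩
  obtain ⟨x0, ly⟩ := lyap (A - B * F) γ g0 h (cost (A - B * F)) rfl
  simp only [opNorm]
  generalize cost (A - B * F) = X at *
  generalize hM : A - B * F = M at *
  have xs : IsSelfAdjoint X := .of_nonneg x0
  obtain ⟨U, rfl⟩ : IsUnit M := by
    by_contra hn
    have := h 0 (spectrum.zero_mem ℂ hn)
    simp only [Complex.zero_re] at this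
    linarith
  set N := (U⁻¹).1 with hN
  have n1 : U.1 * N = 1 := U.mul_inv
  have n2 : star N * star U.1 = 1 := by rw [← star_mul, n1, star_one]
  obtain ⟨V, rfl⟩ : IsUnit X := by
    by_contra hn
    obtain ⟨v, v0, hv⟩ := exists_mulVec_eq_zero_iff.2 (not_not.1 fun hd =>
      hn ((isUnit_iff_isUnit_det X).2 (Ne.isUnit hd)))
    have h2 : star v ᵥ* X = 0 := by
      rw [← xs.star_eq, star_eq_conjTranspose, ← star_mulVec, hv, star_zero]
    have := congrArg (fun Y => star v ⬝ᵥ Y *ᵥ v) ly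
    simp only [add_mulVec, ← mulVec_mulVec, hv, mulVec_zero, zero_add, neg_mulVec, one_mulVec] at this
    rw [dotProduct_mulVec, h2, zero_dotProduct, dotProduct_neg, eq_comm, neg_eq_zero] at this
    exact v0 (dotProduct_star_self_eq_zero.1 this)
  set Z := (V⁻¹).1 with hZ
  have z1 : Z * V.1 = 1 := V.inv_mul
  have z2 : V.1 * Z = 1 := V.mul_inv
  have zs : star Z = Z := by
    rw [← mul_one (star Z), ← z2, ← mul_assoc, ← xs.star_eq, ← star_mul, z2, star_one, one_mul]
  have e1 : N + Z * (star N * V.1) = -(Z * (star N * N)) := by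
    have := congrArg (fun Y => Z * (star N * Y * N)) ly
    simp only [mul_add, add_mul, ← mul_assoc (star N), n2, one_mul, mul_assoc _ U.1 N, n1, mul_one,
      ← mul_assoc Z V.1, z1, mul_neg, neg_mul] at this
    exact this
  have e2 := congrArg trace e1
  rw [trace_add, trace_mul_comm Z, mul_assoc, z2, mul_one, trace_neg, ← mul_assoc, trace_mul_comm,
    ← mul_assoc, star_eq_conjTranspose, trace_conjTranspose] at e2
  have y0 : 0 ≤ algebraMap ℝ _ ‖V.1‖ - V.1 := sub_nonneg.2 xs.le_algebraMap_norm_self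
  have p1 := star_right_conjugate_nonneg (Commute.mul_nonneg x0 y0
    ((Algebra.commute_algebraMap_right _ _).sub_right (Commute.refl _))) (N * Z)
  have e3 : N * Z * (V.1 * (algebraMap ℝ _ ‖V.1‖ - V.1)) * star (N * Z) =
      ‖V.1‖ • (N * Z * Nᴴ) - N * Nᴴ := by
    rw [star_mul, zs, mul_assoc N Z, ← mul_assoc Z, z1, one_mul, Algebra.algebraMap_eq_smul_one,
      star_eq_conjTranspose]
    simp only [mul_sub, sub_mul, mul_smul_comm, smul_mul_assoc, mul_one, mul_assoc, ← mul_assoc V.1 Z, z2,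
      one_mul]
  have p2 := (Complex.nonneg_iff.1 (nonneg_iff_posSemidef.1 (e3 ▸ p1)).trace_nonneg).1
  rw [trace_sub, trace_smul, Complex.sub_re, Complex.smul_re, smul_eq_mul] at p2
  have p3 : ‖N‖ ^ 2 ≤ (N * Nᴴ).trace.re := by
    have hp := posSemidef_self_mul_conjTranspose N
    have := CStarAlgebra.norm_mem_spectrum_of_nonneg hp.nonneg
    rw [hp.1.spectrum_real_eq_range_eigenvalues] at this
    obtain ⟨i, hi⟩ := this
    rw [hp.1.trace_eq_sum_eigenvalues, sq, ← CStarRing.norm_self_mul_star, star_eq_conjTranspose, ← hi,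
      Complex.re_sum]
    exact Finset.single_le_sum (f := fun i => hp.1.eigenvalues i)
      (fun i _ => hp.eigenvalues_nonneg i) (Finset.mem_univ i)
  have p4 : 1 ≤ ‖A‖ * ‖N‖ := by
    refine le_trans ?_ (norm_mul_le A N)
    rw [← norm_one (α := ℂ)]
    refine spectrum.norm_le_norm_of_mem fun hu => ?_
    have : algebraMap ℂ _ 1 - A * N = B * -(F * N) := by
      rw [map_one, ← n1, ← hM, sub_mul, Matrix.mul_neg, Matrix.mul_assoc]
      abel
    rw [spectrum.mem_resolventSet_iff, this] at hu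
    have r := rank_of_isUnit _ hu
    have := (rank_mul_le_left B (-(F * N))).trans (rank_le_width B)
    rw [r, Fintype.card_fin] at this
    omega
  have p5 : -(n / γ) ≤ N.trace.re := by
    rw [trace_eq_sum_roots_charpoly, ← Complex.reCLM_apply, map_multiset_sum]
    refine le_trans ?_ (Multiset.card_nsmul_le_sum (a := -γ⁻¹) fun x hx => ?_)
    · have := N.charpoly.card_roots'
      rw [charpoly_natDegree_eq_dim, Fintype.card_fin] at this
      rw [Multiset.card_map, nsmul_eq_mul, mul_neg, div_eq_mul_inv, neg_le_neg_iff]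
      gcongr
    · obtain ⟨μ, hμ, rfl⟩ := Multiset.mem_map.1 hx
      have h1 := mem_spectrum_iff_isRoot_charpoly.2 (Polynomial.isRoot_of_mem_roots hμ)
      have m0 : μ ≠ 0 := by
        rintro rfl
        exact spectrum.zero_notMem ℂ (U⁻¹).isUnit h1
      have h2 := h μ⁻¹ (by simpa using (spectrum.inv_mem_iff (r := Units.mk0 μ m0) (a := U⁻¹)).1 h1)
      rw [Complex.inv_re, div_le_iff₀ (Complex.normSq_pos.2 m0), Complex.normSq_apply] at h2
      rw [Complex.reCLM_apply, neg_le, inv_eq_one_div, le_div_iff₀ g0]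
      by_contra hh
      have hh := not_le.1 hh
      have a0 : 0 < -μ.re := (pos_iff_pos_of_mul_pos (one_pos.trans hh)).2 g0
      nlinarith [mul_pos a0 (sub_pos.2 hh), mul_nonneg g0.le (mul_self_nonneg μ.im)]
  have e4 := congrArg Complex.re e2
  rw [Complex.add_re, Complex.neg_re, Complex.star_def, Complex.conj_re] at e4
  have p6 : ‖N‖ ^ 2 ≤ ‖V.1‖ * (2 * (n / γ)) :=
    p3.trans ((sub_nonneg.1 p2).trans (mul_le_mul_of_nonneg_left (by linarith) (norm_nonneg _)))
  have p7 : 1 ≤ ‖A‖ ^ 2 * (‖V.1‖ * (2 * (n / γ))) :=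
    ((one_le_pow₀ p4).trans_eq (mul_pow _ _ 2)).trans (by gcongr)
  calc γ ≤ γ * (‖A‖ ^ 2 * (‖V.1‖ * (2 * (n / γ)))) := le_mul_of_one_le_right g0.le p7
    _ = _ := by field_simp

end Pool.Agent.Results.MP_cf5fc4_an.Cost
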